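import Mathlib

/-!
# The strong skew Finitesatz in several variables

Idea. For a point `a` of the `σ`-affine space the field `F` is a simple left module over
`F[x₁,…,xₙ;σ]` on which `x_i c = σ(c) a_i`, and `f 1 = f(a)`. As there are finitely many points, the
ring modulo the polynomials vanishing everywhere is a semisimple module whose simple constituents
are among these modules. Hence a polynomial `f` outside of `J + I(F^{n,σ})` has a non-zero image
under some homomorphism `g ↦ g c` to such a module which annihilates `J`; and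
`g c = g(a') c` for the conjugate point `a'_i = σ(c) a_i / c`.
-/

set_option autoImplicit false

namespace Pool.Agent.Results.MP_89f45c_al.StrongFinitesatz

open Finset

universe u

/-- The monoid of monomials `x₁ ^ k₁ ⋯ xₙ ^ kₙ`, that is the monoid `ℕⁿ` of the exponent vectors,
written multiplicatively. The automorphism `σ` is recorded in order to fix the action on `F`. -/
def Mon {F : Type u} [Field F] (n : ℕ) (_σ : RingAut F) : Type := Multiplicative (Fin n → ℕ)

variable {F : Type u} [Field F] {n : ℕ} {σ : RingAut F}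

/-- The exponent vector of a monomial. -/
def expo (k : Mon n σ) : Fin n → ℕ := Multiplicative.toAdd k

noncomputable instance : CommMonoid (Mon n σ) :=
  inferInstanceAs (CommMonoid (Multiplicative (Fin n → ℕ)))

@[simp] lemma expo_one : expo (1 : Mon n σ) = 0 := rfl

@[simp] lemma expo_mul (k l : Mon n σ) : expo (k * l) = expo k + expo l := rfl

/-- The total degree of a monomial. -/
def deg (k : Mon n σ) : ℕ := ∑ i, expo k i

@[simp] lemma deg_one : deg (1 : Mon n σ) = 0 := by simp [deg]

@[simp] lemma deg_mul (k l : Mon n σ) : deg (k * l) = deg k + deg l := by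
  simp [deg, Finset.sum_add_distrib]

/-- A monomial of total degree `d` acts on the coefficients by `σ ^ d`. -/
noncomputable instance : MulSemiringAction (Mon n σ) F where
  smul k c := (σ ^ deg k) c
  one_smul c := by change (σ ^ deg (1 : Mon n σ)) c = c; simp
  mul_smul k l c := by
    change (σ ^ deg (k * l)) c = (σ ^ deg k) ((σ ^ deg l) c)
    rw [deg_mul, pow_add]; rfl
  smul_zero k := map_zero _
  smul_add k := map_add _
  smul_one k := map_one _
  smul_mul k := map_mul _

lemma smul_def (k : Mon n σ) (c : F) : k • c = (σ ^ deg k) c := rfl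

/-- The skew polynomial ring `F[x₁,…,xₙ;σ]`: finite sums `∑ c_k x^k` with the coefficients on the
left, where `(b x^k) (c x^l) = b σ^{|k|}(c) x^{k+l}`. -/
abbrev SkewPoly (n : ℕ) (σ : RingAut F) : Type u := SkewMonoidAlgebra F (Mon n σ)

/-- `N_k(c) = σ^{k-1}(c) ⋯ σ(c) c`. -/
noncomputable def skewNorm (σ : RingAut F) (k : ℕ) (c : F) : F := ∏ j ∈ range k, (σ ^ j) c

/-- The value `∏ i, σ^{k_1+…+k_{i-1}}(N_{k_i}(a_i))` of the monomial with the exponents `k` at the
point `a`. -/
noncomputable def monEval {n : ℕ} (σ : RingAut F) (a : Fin n → F) (k : Fin n → ℕ) : F :=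
  ∏ i, (σ ^ ∑ j with j < i, k j) (skewNorm σ (k i) (a i))

/-- The `σ`-affine space `F^{n,σ}`. -/
def AffineSpace (n : ℕ) (σ : RingAut F) : Type u :=
  {a : Fin n → F // ∀ i j, i ≠ j → σ (a j) * a i = σ (a i) * a j}

/-- The value `f(a)` of a skew polynomial at a point. -/
noncomputable def eval (a : AffineSpace n σ) (f : SkewPoly n σ) : F :=
  f.sum fun k c => c * monEval σ a.1 (expo k)

/-- The zero set `𝒱(J)` of a left ideal `J` (in Mathlib an `Ideal` of a ring is a left ideal). -/
def zeroSet (J : Ideal (SkewPoly n σ)) : Set (AffineSpace n σ) :=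
  {a | ∀ f ∈ J, eval a f = 0}

section norm

lemma skewNorm_zero (c : F) : skewNorm σ 0 c = 1 := by simp [skewNorm]

lemma skewNorm_succ (k : ℕ) (c : F) : skewNorm σ (k + 1) c = skewNorm σ k c * (σ ^ k) c := by
  simp [skewNorm, Finset.prod_range_succ]

lemma pow_apply_add (k l : ℕ) (c : F) : (σ ^ k) ((σ ^ l) c) = (σ ^ (k + l)) c := by
  rw [pow_add]; rfl

lemma pow_one_apply (c : F) : (σ ^ 1) c = σ c := by rw [pow_one]

lemma skewNorm_add (k l : ℕ) (c : F) :
    skewNorm σ (k + l) c = skewNorm σ k c * (σ ^ k) (skewNorm σ l c) := by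
  induction l with
  | zero => simp [skewNorm_zero]
  | succ l ih => rw [← add_assoc, skewNorm_succ, ih, skewNorm_succ, map_mul, pow_apply_add]; ring

lemma skewNorm_mul (k : ℕ) (b c : F) :
    skewNorm σ k (b * c) = skewNorm σ k b * skewNorm σ k c := by
  simp [skewNorm, Finset.prod_mul_distrib]

lemma skewNorm_conj (k : ℕ) (c : F) (hc : c ≠ 0) :
    skewNorm σ k (σ c / c) * c = (σ ^ k) c := by
  induction k with
  | zero => simp [skewNorm_zero]
  | succ k ih =>
    have hk : (σ ^ k) c ≠ 0 := by
      rw [Ne, map_eq_zero_iff _ (σ ^ k).injective]; exact hc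
    rw [skewNorm_succ, map_div₀, mul_right_comm, ih, ← pow_one_apply (σ := σ) c,
      pow_apply_add]
    field_simp

/-- two coordinates of a point -/
def Com (σ : RingAut F) (a b : F) : Prop := σ a * b = σ b * a

lemma com_aux {a b : F} (h : Com σ a b) (k : ℕ) :
    σ (skewNorm σ k a) * b = (σ ^ k) b * skewNorm σ k a := by
  induction k with
  | zero => simp [skewNorm_zero]
  | succ k ih =>
    have h1 : (σ ^ (k + 1)) a * (σ ^ k) b = (σ ^ (k + 1)) b * (σ ^ k) a := by
      have := congrArg (σ ^ k) h
      rw [map_mul, map_mul, ← pow_one_apply (σ := σ) a, ← pow_one_apply (σ := σ) b,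
        pow_apply_add, pow_apply_add] at this
      exact this
    have h2 : σ ((σ ^ k) a) = (σ ^ (k + 1)) a := by
      rw [← pow_one_apply (σ := σ), pow_apply_add, add_comm]
    rw [skewNorm_succ, map_mul, h2]
    calc σ (skewNorm σ k a) * (σ ^ (k + 1)) a * b
        = (σ (skewNorm σ k a) * b) * (σ ^ (k + 1)) a := by ring
      _ = skewNorm σ k a * ((σ ^ (k + 1)) a * (σ ^ k) b) := by rw [ih]; ring
      _ = _ := by rw [h1]; ring

lemma com_norm {a b : F} (h : Com σ a b) (k l : ℕ) :
    (σ ^ l) (skewNorm σ k a) * skewNorm σ l b = (σ ^ k) (skewNorm σ l b) * skewNorm σ k a := by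
  induction l with
  | zero => simp [skewNorm_zero]
  | succ l ih =>
    have h1 : (σ ^ (l + 1)) (skewNorm σ k a) * (σ ^ l) b =
        (σ ^ (l + k)) b * (σ ^ l) (skewNorm σ k a) := by
      have := congrArg (σ ^ l) (com_aux h k)
      rw [map_mul, map_mul, ← pow_one_apply (σ := σ) (skewNorm σ k a), pow_apply_add,
        pow_apply_add] at this
      exact this
    rw [skewNorm_succ l, map_mul, pow_apply_add]
    calc (σ ^ (l + 1)) (skewNorm σ k a) * (skewNorm σ l b * (σ ^ l) b)
        = ((σ ^ (l + 1)) (skewNorm σ k a) * (σ ^ l) b) * skewNorm σ l b := by ring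
      _ = (σ ^ (l + k)) b * ((σ ^ l) (skewNorm σ k a) * skewNorm σ l b) := by rw [h1]; ring
      _ = _ := by rw [ih, add_comm l k]; ring

end norm

section monEval

lemma monEval_zero (a : Fin 0 → F) (k : Fin 0 → ℕ) : monEval σ a k = 1 := by simp [monEval]

lemma monEval_succ {m : ℕ} (a : Fin (m + 1) → F) (k : Fin (m + 1) → ℕ) :
    monEval σ a k = skewNorm σ (k 0) (a 0) *
      (σ ^ k 0) (monEval σ (fun i => a i.succ) (fun i => k i.succ)) := by
  unfold monEval
  rw [Fin.prod_univ_succ, map_prod]
  congr 1
  · simp
  · refine Finset.prod_congr rfl fun i _ => ?_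
    rw [pow_apply_add]
    congr 3
    rw [Finset.sum_filter, Fin.sum_univ_succ, Finset.sum_filter]
    simp [Fin.succ_lt_succ_iff]

lemma com_monEval {m : ℕ} (a : Fin m → F) (b : F) (h : ∀ i, Com σ (a i) b) (k : Fin m → ℕ)
    (l : ℕ) : (σ ^ l) (monEval σ a k) * skewNorm σ l b =
      (σ ^ ∑ i, k i) (skewNorm σ l b) * monEval σ a k := by
  induction m with
  | zero => simp [monEval_zero]
  | succ m ih =>
    have h1 := ih (fun i => a i.succ) (fun i => h i.succ) (fun i => k i.succ)
    have h2 := congrArg (σ ^ k 0) h1
    rw [map_mul, map_mul, pow_apply_add, pow_apply_add] at h2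
    rw [monEval_succ, map_mul, pow_apply_add, Fin.sum_univ_succ]
    calc (σ ^ l) (skewNorm σ (k 0) (a 0)) *
          (σ ^ (l + k 0)) (monEval σ (fun i => a i.succ) (fun i => k i.succ)) * skewNorm σ l b
        = ((σ ^ l) (skewNorm σ (k 0) (a 0)) * skewNorm σ l b) *
          (σ ^ (l + k 0)) (monEval σ (fun i => a i.succ) (fun i => k i.succ)) := by ring
      _ = skewNorm σ (k 0) (a 0) *
          ((σ ^ (k 0 + l)) (monEval σ (fun i => a i.succ) (fun i => k i.succ)) *
            (σ ^ k 0) (skewNorm σ l b)) := by rw [com_norm (h 0), add_comm l]; ring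
      _ = _ := by rw [h2]; ring

lemma monEval_add {m : ℕ} (a : Fin m → F) (h : ∀ i j, Com σ (a j) (a i))
    (k l : Fin m → ℕ) :
    monEval σ a (k + l) = (σ ^ ∑ i, k i) (monEval σ a l) * monEval σ a k := by
  induction m with
  | zero => simp [monEval_zero]
  | succ m ih =>
    have h1 := ih (fun i => a i.succ) (fun i j => h i.succ j.succ) (fun i => k i.succ)
      (fun i => l i.succ)
    have h2 := com_monEval (fun i => a i.succ) (a 0) (fun i => h 0 i.succ)
      (fun i => k i.succ) (l 0)
    have h3 := congrArg (σ ^ k 0) h2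
    rw [map_mul, map_mul, pow_apply_add, pow_apply_add] at h3
    rw [monEval_succ a (k + l), monEval_succ a k, monEval_succ a l]
    have e1 : (fun i : Fin m => (k + l) i.succ) = (fun i => k i.succ) + fun i => l i.succ := rfl
    rw [e1, h1, Pi.add_apply, skewNorm_add, map_mul, map_mul, Fin.sum_univ_succ, pow_apply_add,
      pow_apply_add]
    have e2 : k 0 + l 0 + ∑ i : Fin m, k i.succ = k 0 + ∑ i : Fin m, k i.succ + l 0 := by ring
    rw [e2]
    calc skewNorm σ (k 0) (a 0) * (σ ^ k 0) (skewNorm σ (l 0) (a 0)) *
          ((σ ^ (k 0 + ∑ i : Fin m, k i.succ + l 0)) (monEval σ (fun i => a i.succ)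
            fun i => l i.succ) *
          (σ ^ (k 0 + l 0)) (monEval σ (fun i => a i.succ) fun i => k i.succ))
        = skewNorm σ (k 0) (a 0) * (σ ^ (k 0 + ∑ i : Fin m, k i.succ + l 0))
            (monEval σ (fun i => a i.succ) fun i => l i.succ) *
          ((σ ^ (k 0 + l 0)) (monEval σ (fun i => a i.succ) fun i => k i.succ) *
            (σ ^ k 0) (skewNorm σ (l 0) (a 0))) := by ring
      _ = _ := by rw [h3]; ring

lemma monEval_conj {m : ℕ} (a : Fin m → F) (c : F) (hc : c ≠ 0) (k : Fin m → ℕ) :
    monEval σ (fun i => σ c / c * a i) k * c = monEval σ a k * (σ ^ ∑ i, k i) c := by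
  induction m with
  | zero => simp [monEval_zero]
  | succ m ih =>
    have h1 := congrArg (σ ^ k 0) (ih (fun i => a i.succ) (fun i => k i.succ))
    rw [map_mul, map_mul, pow_apply_add] at h1
    rw [monEval_succ, monEval_succ, skewNorm_mul, Fin.sum_univ_succ]
    calc skewNorm σ (k 0) (σ c / c) * skewNorm σ (k 0) (a 0) *
          (σ ^ k 0) (monEval σ (fun i => σ c / c * a i.succ) fun i => k i.succ) * c
        = skewNorm σ (k 0) (a 0) *
          ((σ ^ k 0) (monEval σ (fun i => σ c / c * a i.succ) fun i => k i.succ) *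
            (skewNorm σ (k 0) (σ c / c) * c)) := by ring
      _ = _ := by rw [skewNorm_conj _ _ hc, h1]; ring

end monEval

section rep

lemma com_of (a : AffineSpace n σ) (i j : Fin n) : Com σ (a.1 j) (a.1 i) := by
  by_cases h : i = j
  · subst h; rfl
  · exact a.2 i j h

/-- the action of the monomials on the module of a point -/
noncomputable def monRep (a : AffineSpace n σ) : Mon n σ →* AddMonoid.End F where
  toFun k :=
    { toFun := fun c => monEval σ a.1 (expo k) * (σ ^ deg k) c
      map_zero' := by simp
      map_add' := fun c d => by rw [map_add, mul_add] }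
  map_one' := by
    ext c
    change monEval σ a.1 (expo (1 : Mon n σ)) * (σ ^ deg (1 : Mon n σ)) c = c
    simp [monEval, skewNorm_zero]
  map_mul' k l := by
    ext c
    change monEval σ a.1 (expo (k * l)) * (σ ^ deg (k * l)) c =
      monEval σ a.1 (expo k) * (σ ^ deg k) (monEval σ a.1 (expo l) * (σ ^ deg l) c)
    rw [expo_mul, deg_mul, monEval_add _ (com_of a), map_mul, pow_apply_add]
    rw [show (∑ i, expo k i) = deg k from rfl]
    ring

/-- the action of the skew polynomials on the module of a point -/
noncomputable def rep (a : AffineSpace n σ) : SkewPoly n σ →+* AddMonoid.End F :=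
  SkewMonoidAlgebra.liftNCRingHom (Module.toAddMonoidEnd F F) (monRep a) (by
    intro x y
    ext c
    change (y • x) * (monEval σ a.1 (expo y) * (σ ^ deg y) c) =
      monEval σ a.1 (expo y) * (σ ^ deg y) (x * c)
    rw [smul_def, map_mul]
    ring)

lemma rep_single (a : AffineSpace n σ) (k : Mon n σ) (b c : F) :
    rep a (SkewMonoidAlgebra.single k b) c = b * (monEval σ a.1 (expo k) * (σ ^ deg k) c) := by
  change (SkewMonoidAlgebra.liftNC _ _ (SkewMonoidAlgebra.single k b) : AddMonoid.End F) c = _
  rw [SkewMonoidAlgebra.liftNC_single]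
  rfl

lemma end_add (x y : AddMonoid.End F) (c : F) : (x + y) c = x c + y c := rfl

lemma end_mul (x y : AddMonoid.End F) (c : F) : (x * y) c = x (y c) := rfl

lemma eval_add (a : AffineSpace n σ) (f g : SkewPoly n σ) :
    eval a (f + g) = eval a f + eval a g := by
  unfold eval
  exact SkewMonoidAlgebra.sum_add_index' (fun k => by simp) (fun k b c => by ring)

lemma rep_one (a : AffineSpace n σ) (f : SkewPoly n σ) : rep a f 1 = eval a f := by
  induction f using SkewMonoidAlgebra.induction_on with
  | zero => simp [eval, SkewMonoidAlgebra.sum_zero_index]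
  | single k b =>
    rw [rep_single, eval, SkewMonoidAlgebra.sum_single_index (by simp)]
    simp
  | add f g hf hg => rw [map_add, end_add, hf, hg, eval_add]

/-- the conjugate point -/
noncomputable def conj (a : AffineSpace n σ) (c : F) : AffineSpace n σ :=
  ⟨fun i => σ c / c * a.1 i, fun i j hij => by
    have := a.2 i j hij
    rw [map_mul, map_mul]
    linear_combination (σ (σ c / c) * (σ c / c)) * this⟩

lemma rep_conj (a : AffineSpace n σ) (c : F) (hc : c ≠ 0) (f : SkewPoly n σ) :
    rep a f c = eval (conj a c) f * c := by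
  induction f using SkewMonoidAlgebra.induction_on with
  | zero => simp [eval, SkewMonoidAlgebra.sum_zero_index]
  | single k b =>
    rw [rep_single, eval, SkewMonoidAlgebra.sum_single_index (by simp), mul_assoc]
    congr 1
    exact (monEval_conj a.1 c hc (expo k)).symm
  | add f g hf hg => rw [map_add, end_add, hf, hg, eval_add, add_mul]

end rep

/-- The left ideal `ℐ(S)` of all skew polynomials vanishing at the points of `S`. -/
noncomputable def vanishingIdeal (S : Set (AffineSpace n σ)) : Ideal (SkewPoly n σ) where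
  carrier := {f | ∀ a ∈ S, eval a f = 0}
  zero_mem' := fun a _ => by rw [← rep_one]; simp
  add_mem' := fun {f g} hf hg a ha => by rw [eval_add, hf a ha, hg a ha, add_zero]
  smul_mem' := fun g f hf a ha => by
    rw [smul_eq_mul, ← rep_one, map_mul, end_mul, rep_one, hf a ha, map_zero]

section modules

/-- the simple module of a point -/
def Pt (_a : AffineSpace n σ) : Type u := F

noncomputable instance (a : AffineSpace n σ) : AddCommGroup (Pt a) :=
  inferInstanceAs (AddCommGroup F)

noncomputable instance (a : AffineSpace n σ) : Module (SkewPoly n σ) (Pt a) :=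
  Module.compHom F (rep a)

lemma pt_smul (a : AffineSpace n σ) (f : SkewPoly n σ) (c : Pt a) : f • c = rep a f c := rfl

instance (a : AffineSpace n σ) : IsSimpleModule (SkewPoly n σ) (Pt a) := by
  rw [isSimpleModule_iff_toSpanSingleton_surjective]
  refine ⟨inferInstanceAs (Nontrivial F), ?_⟩
  have key : ∀ c d : F, c ≠ 0 → rep a (SkewMonoidAlgebra.single 1 (d / c)) c = d := by
    intro c d hc
    rw [rep_single]
    have h1 : monEval σ a.1 (expo (1 : Mon n σ)) = 1 := by simp [monEval, skewNorm_zero]
    rw [h1, deg_one, pow_zero, one_mul]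
    exact div_mul_cancel₀ d hc
  exact fun c hc d => ⟨_, key c d hc⟩

/-- evaluation at all points -/
noncomputable def evalAll (n : ℕ) (σ : RingAut F) :
    SkewPoly n σ →ₗ[SkewPoly n σ] (a : AffineSpace n σ) → Pt a :=
  LinearMap.pi fun a => LinearMap.toSpanSingleton (SkewPoly n σ) (Pt a) (1 : F)

lemma ker_evalAll : LinearMap.ker (evalAll n σ) = vanishingIdeal Set.univ := by
  ext f
  rw [LinearMap.mem_ker]
  constructor
  · intro h a _
    have := congrFun h a
    rw [← rep_one]
    exact this
  · intro h
    funext a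
    have := h a trivial
    rw [← rep_one] at this
    exact this

end modules

/-- **The strong skew Finitesatz in several variables.** Let `F` be a finite field, `σ` an
automorphism of `F` and `n` a natural number. For every left ideal `J` of the skew polynomial ring
`F[x₁,…,xₙ;σ]` one has `ℐ(𝒱(J)) = J + ℐ(F^{n,σ})`. -/
theorem result (F : Type u) [Field F] [Finite F] (σ : RingAut F) (n : ℕ)
    (J : Ideal (SkewPoly n σ)) :
    vanishingIdeal (zeroSet J) = J ⊔ vanishingIdeal (Set.univ : Set (AffineSpace n σ)) := by
  have hfin : Finite (AffineSpace n σ) := inferInstanceAs (Finite (Subtype _))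
  apply le_antisymm
  · intro f hf
    by_contra hcon
    set K := vanishingIdeal (Set.univ : Set (AffineSpace n σ)) with hK
    set J' := J ⊔ K with hJ'
    have hKJ : K ≤ J' := le_sup_right
    -- the module `R / K` is semisimple
    have ss1 : IsSemisimpleModule (SkewPoly n σ) (SkewPoly n σ ⧸ K) := by
      rw [hK, ← ker_evalAll]
      exact IsSemisimpleModule.of_injective
        (Submodule.liftQ (LinearMap.ker (evalAll n σ)) (evalAll n σ) le_rfl)
        (LinearMap.ker_eq_bot.1 (Submodule.ker_liftQ_eq_bot _ _ _ le_rfl))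
    let q : (SkewPoly n σ ⧸ K) →ₗ[SkewPoly n σ] (SkewPoly n σ ⧸ J') := Submodule.factor hKJ
    have hq : Function.Surjective q := Submodule.factor_surjective hKJ
    have ss2 : IsSemisimpleModule (SkewPoly n σ) (SkewPoly n σ ⧸ J') :=
      IsSemisimpleModule.of_surjective q hq
    -- a simple submodule in the submodule generated by the class of `f`
    let fb : SkewPoly n σ ⧸ J' := Submodule.Quotient.mk f
    have hfb : fb ≠ 0 := fun h => hcon ((Submodule.Quotient.mk_eq_zero _).1 h)
    obtain h0 | ⟨S, hS1, hS2⟩ := IsSemisimpleModule.eq_bot_or_exists_simple_le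
      (Submodule.span (SkewPoly n σ) {fb})
    · rw [Submodule.span_singleton_eq_bot] at h0
      exact hfb h0
    have : IsSimpleModule (SkewPoly n σ) S := hS2
    obtain ⟨p, hp⟩ := IsSemisimpleModule.extension_property (R := SkewPoly n σ)
      S.subtype S.injective_subtype (LinearMap.id : S →ₗ[SkewPoly n σ] S)
    have hpf : p fb ≠ 0 := by
      intro h
      have h1 : Submodule.span (SkewPoly n σ) {fb} ≤ LinearMap.ker p := by
        rw [Submodule.span_singleton_le_iff_mem]
        exact h
      have := IsSimpleModule.nontrivial (SkewPoly n σ) S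
      obtain ⟨s, hs⟩ := exists_ne (0 : S)
      apply hs
      have h2 : p (S.subtype s) = s := LinearMap.congr_fun hp s
      rw [← h2]
      exact h1 (hS1 s.2)
    -- `S` is isomorphic to the module of some point
    have hpsurj : Function.Surjective p := by
      intro s
      exact ⟨S.subtype s, LinearMap.congr_fun hp s⟩
    obtain ⟨h, hh⟩ := IsSemisimpleModule.lifting_property (R := SkewPoly n σ)
      (p ∘ₗ q) (hpsurj.comp hq) (LinearMap.id : S →ₗ[SkewPoly n σ] S)
    have hinj : Function.Injective h := by
      intro s t hst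
      have h1 : (p ∘ₗ q) (h s) = s := LinearMap.congr_fun hh s
      have h2 : (p ∘ₗ q) (h t) = t := LinearMap.congr_fun hh t
      rw [← h1, ← h2, hst]
    let E : (SkewPoly n σ ⧸ K) →ₗ[SkewPoly n σ] ((a : AffineSpace n σ) → Pt a) :=
      Submodule.liftQ K (evalAll n σ) (by rw [ker_evalAll])
    have hE : Function.Injective E := by
      apply LinearMap.ker_eq_bot.1
      apply Submodule.ker_liftQ_eq_bot
      rw [ker_evalAll]
    obtain ⟨b, hb⟩ : ∃ b : AffineSpace n σ, (LinearMap.proj b ∘ₗ E ∘ₗ h) ≠ 0 := by
      by_contra hcon2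
      push Not at hcon2
      have := IsSimpleModule.nontrivial (SkewPoly n σ) S
      obtain ⟨s, hs⟩ := exists_ne (0 : S)
      apply hs
      apply hinj
      apply hE
      rw [map_zero, map_zero]
      funext b
      exact LinearMap.congr_fun (hcon2 b) s
    have hbij := LinearMap.bijective_of_ne_zero hb
    -- the resulting homomorphism from the ring to the module of the point `b`
    let ψ : SkewPoly n σ →ₗ[SkewPoly n σ] Pt b :=
      (LinearMap.proj b ∘ₗ E ∘ₗ h) ∘ₗ p ∘ₗ Submodule.mkQ J'
    have hψf : ψ f ≠ 0 := by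
      intro h0
      apply hpf
      apply hbij.1
      rw [map_zero]
      exact h0
    have hψJ : ∀ g ∈ J, ψ g = 0 := by
      intro g hg
      have : Submodule.mkQ J' g = 0 := by
        rw [Submodule.mkQ_apply, Submodule.Quotient.mk_eq_zero]
        exact (le_sup_left : J ≤ J') hg
      change (LinearMap.proj b ∘ₗ E ∘ₗ h) (p (Submodule.mkQ J' g)) = 0
      rw [this, map_zero, map_zero]
    have hψ : ∀ g, ψ g = rep b g (ψ 1) := by
      intro g
      have := ψ.map_smul g 1
      rw [smul_eq_mul, mul_one] at this
      exact this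
    obtain ⟨c, hcdef⟩ : ∃ c : F, (show Pt b from c) = ψ 1 := ⟨ψ 1, rfl⟩
    have hc : c ≠ 0 := by
      intro h0
      apply hψf
      rw [hψ f, ← hcdef, h0]
      exact map_zero (rep b f)
    have key : ∀ g, ψ g = (show Pt b from (eval (conj b c) g * c : F)) := fun g => by
      rw [hψ g, ← hcdef]; exact rep_conj b _ hc g
    have hmem : conj b c ∈ zeroSet J := by
      intro g hg
      have h1 : (eval (conj b c) g * c : F) = 0 := by
        have := key g
        rw [hψJ g hg] at this
        exact this.symm
      rcases (mul_eq_zero (M₀ := F)).1 h1 with h2 | h2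
      · exact h2
      · exact absurd h2 hc
    apply hψf
    rw [key f, hf _ hmem]
    exact zero_mul (M₀ := F) _
  · apply sup_le
    · intro f hf a ha
      exact ha f hf
    · intro f hf a _
      exact hf a trivial

end Pool.Agent.Results.MP_89f45c_al.StrongFinitesatz
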